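import Pool.Agent.Lib.helper22.Bipolar

namespace Pool.Agent.H.MP_11f428_an

open Finset Filter Topology Pool.Agent.Lib.helper22.Bipolar

theorem onto {𝕜 E W : Type} [RCLike 𝕜] [NormedAddCommGroup E] [NormedSpace 𝕜 E] [CompleteSpace E]
    [NormedAddCommGroup W] [NormedSpace 𝕜 W] (J : W →L[𝕜] E →L[𝕜] 𝕜) (hJ : ∀ w, ‖w‖ ≤ ‖J w‖)
    (x : ℕ → E) (hd : Dense (Submodule.span 𝕜 (Set.range x) : Set E))
    (ht : ∀ y, (∀ w, J w y = 0) → y = 0)
    (hb : ∀ (g : ℕ → W) (α : ℕ → 𝕜), (∃ C, ∀ j, ‖g j‖ ≤ C) →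
      (∀ n, Tendsto (fun j => J (g j) (x n)) atTop (𝓝 (α n))) → ∃ h, ∀ n, J h (x n) = α n)
    (g : E →L[𝕜] 𝕜) : ∃ h, J h = g := by
  let u : E →L[𝕜] W →L[𝕜] 𝕜 := J.flip
  have mem : ∀ (g : E →L[𝕜] 𝕜) (C : ℝ), 0 ≤ C → (∀ y, ‖g y‖ ≤ C * ‖u y‖) → ∃ h, J h = g := by
    intro g C hC hg
    have st : ∀ j : ℕ, ∃ h : W, ‖h‖ ≤ C ∧ ∀ n < j, ‖J h (x n) - g (x n)‖ ≤ 1 / ((j : ℝ) + 1) := by
      intro j
      obtain ⟨h, h1, h2⟩ := approx (ContinuousLinearMap.pi fun n : Fin j => u (x n))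
        (fun n => g (x n)) C hC (fun ψ => by
          have e : ∀ v : Fin j → 𝕜, ψ v = ∑ n, ψ (Pi.single n 1) * v n := fun v => by
            conv_lhs => rw [pi_eq_sum_univ' v]
            simp [mul_comm]
          refine (congrArg norm ?_).trans_le ((hg (∑ n : Fin j, ψ (Pi.single n 1) • x n)).trans_eq
            (congrArg (C * ‖·‖) (ContinuousLinearMap.ext fun h => ?_)))
          · rw [e]; simp
          · rw [ContinuousLinearMap.comp_apply, e]; simp [u]) _ Nat.one_div_pos_of_nat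
      exact ⟨h, h1, fun n hn => by
        rw [norm_sub_rev]; exact (norm_le_pi_norm _ (⟨n, hn⟩ : Fin j)).trans h2.le⟩
    choose h h1 h2 using st
    obtain ⟨k, k2⟩ := hb h (fun n => g (x n)) ⟨C, h1⟩
      fun n => tendsto_iff_norm_sub_tendsto_zero.2 (squeeze_zero' (.of_forall fun _ => norm_nonneg _)
        ((eventually_gt_atTop n).mono fun j hj => h2 j n hj) tendsto_one_div_add_atTop_nhds_zero_nat)
    exact ⟨k, ContinuousLinearMap.ext_on hd (by rintro _ ⟨n, rfl⟩; exact k2 n)⟩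
  have bb := bounded_below u (fun y hy => ht y fun w => congrArg (· w) hy) fun ψ y => by
    obtain ⟨h, e⟩ := mem (ψ ∘L u) _ (norm_nonneg ψ) fun z => ψ.le_opNorm _
    rw [← ContinuousLinearMap.comp_apply, ← e]
    exact (u y).le_of_opNorm_le_of_le le_rfl (hJ h)
  refine mem g (‖g‖ * 2) (by positivity) fun y => ?_
  rw [mul_assoc]
  exact g.le_of_opNorm_le_of_le le_rfl (bb y)

end Pool.Agent.H.MP_11f428_an
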